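import Pool.Agent.V7H77.CK.Core2
import Pool.Agent.V7H77.CK.Graph

/-!
# Intersections of conjugates of a convex cocompact subgroup of a CAT(0) group

Let `G` act geometrically on a proper geodesically complete CAT(0) space `X`.

Let `K` be a convex cocompact subgroup of infinite index such that every descending chain of finite
intersections of conjugates of `K` has a step of finite index (for instance a virtually abelian
subgroup of infinite index, or a commensurated convex cocompact subgroup).  If `X` is irreducible then
finitely many conjugates of `K` have a finite intersection.  In general either this is the case, or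
`X` is a product `Z × B₀` of two spaces with more than one point; the decomposition is preserved by
`G`, and a finite intersection of conjugates of `K`, which is commensurated by `G`, acts cocompactly
on the closed convex subset `B₀` of `X`.

So an irreducible `X` admits no infinite commensurated convex cocompact subgroup of infinite index;
if `G` acts on a connected locally finite graph and a vertex stabiliser is convex cocompact in `X`,
then it is finite or the orbit of the vertex is finite.

Idea of the proof.  By the chain condition some finite intersection `L` of conjugates is commensurated.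
It is convex cocompact, so a minimal closed convex `L`-invariant set `B₀` has finite distance from all
its translates.  By the theorem of the starting files on such sets (`T6/H46/RC`) the parallel copies of
`B₀` fill the space and define the product decomposition; the translate of a copy by an element of `G`
is a copy.
-/

set_option autoImplicit false

open Set Metric

namespace Pool.Agent.Results.MP_ff40e8_al.ConjugateIntersectionsH77

/-- The inequality of Bruhat and Tits: a complete metric space is CAT(0) if and only if any two
points `p`, `q` have a midpoint `m` such that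
`d(x, m)² ≤ (d(x, p)² + d(x, q)²) / 2 - d(p, q)² / 4` for all `x`. -/
def BruhatTits (X : Type) [MetricSpace X] : Prop := ∀ p q : X, ∃ m : X, ∀ x : X,
  dist x m ^ 2 ≤ (dist x p ^ 2 + dist x q ^ 2) / 2 - dist p q ^ 2 / 4

/-- Every geodesic segment extends to a geodesic line: for `p ≠ q` there is a line through `p` and
`q` (in a CAT(0) space it contains the unique geodesic segment from `p` to `q`). -/
def GeodesicallyComplete (X : Type) [MetricSpace X] : Prop :=
  ∀ p q : X, p ≠ q → ∃ c : ℝ → X, Isometry c ∧ c 0 = p ∧ c (dist p q) = q

/-- `B` is a nonempty closed convex subset of `X`, preserved by the subgroup `K`, which acts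
cocompactly on `B`. -/
def CocompactOn {X : Type} [MetricSpace X] {G : Type} [Group G] [MulAction G X]
    (K : Subgroup G) (B : Set X) : Prop :=
  B.Nonempty ∧ IsClosed B ∧
    (∀ p ∈ B, ∀ q ∈ B, ∀ m, dist p m + dist m q = dist p q → m ∈ B) ∧
    (∀ g ∈ K, ∀ x ∈ B, g • x ∈ B) ∧
    ∃ C : Set X, IsCompact C ∧ ∀ x ∈ B, ∃ g ∈ K, g • x ∈ C

/-- `K` acts cocompactly on a nonempty closed convex subset of `X`. -/
def ConvexCocompact (X : Type) [MetricSpace X] {G : Type} [Group G] [MulAction G X]
    (K : Subgroup G) : Prop := ∃ B : Set X, CocompactOn K B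

/-- The intersection of the conjugates `h K h⁻¹`, `h ∈ F`. -/
def ConjInter {G : Type} [Group G] (K : Subgroup G) (F : Set G) : Subgroup G where
  carrier := {s | ∀ h ∈ F, h⁻¹ * s * h ∈ K}
  one_mem' := (Pool.Agent.V7H77.CK.CI K F).one_mem'
  mul_mem' := (Pool.Agent.V7H77.CK.CI K F).mul_mem'
  inv_mem' := (Pool.Agent.V7H77.CK.CI K F).inv_mem'

/-- `L` is commensurated by `G`: for every `g` the intersection of `L` and `g L g⁻¹` has finite index
in `L`. -/
def Commensurated {G : Type} [Group G] (L : Subgroup G) : Prop :=
  ∀ g : G, (ConjInter L {1, g}).relIndex L ≠ 0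

/-- Every descending chain of intersections of finitely many conjugates of `K`, one of them `K`
itself, has a step of finite index. -/
def ChainCondition {G : Type} [Group G] (K : Subgroup G) : Prop :=
  ∀ F : ℕ → Set G, (∀ n, (F n).Finite) → (∀ n, 1 ∈ F n) → (∀ n, F n ⊆ F (n + 1)) →
    ∃ n, (ConjInter K (F (n + 1))).relIndex (ConjInter K (F n)) ≠ 0

/-- `K` has a finitely generated abelian subgroup of finite index. -/
def VirtuallyAbelian {G : Type} [Group G] (K : Subgroup G) : Prop :=
  ∃ A : Subgroup G, A ≤ K ∧ A.relIndex K ≠ 0 ∧ A.FG ∧ ∀ a ∈ A, ∀ b ∈ A, a * b = b * a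

/-- `X` is isometric to a product `Z × B₀` of two spaces with more than one point, where `B₀` is a
closed convex subset of `X` on which `L` acts cocompactly, and every element of `G` acts on the
product by an isometry of `Z` and an isometry of `B₀`. -/
def Splits (X : Type) [MetricSpace X] {G : Type} [Group G] [MulAction G X]
    (L : Subgroup G) : Prop :=
  ∃ B₀ : Set X, CocompactOn L B₀ ∧ B₀.Nontrivial ∧
    ∃ (Z : Type) (_ : MetricSpace Z) (_ : Nontrivial Z) (e : X ≃ Z × B₀),
      (∀ x x' : X, dist x x' ^ 2 = dist (e x).1 (e x').1 ^ 2 + dist (e x).2 (e x').2 ^ 2) ∧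
      ∀ g : G, ∃ (a : Z → Z) (b : B₀ → B₀), Isometry a ∧ Isometry b ∧
        ∀ x, e (g • x) = (a (e x).1, b (e x).2)

/-- Let `G` act geometrically (by isometries, properly discontinuously, cocompactly) on a proper
geodesically complete CAT(0) space `X`.

(1) If `K` is convex cocompact and satisfies the chain condition, then there is an intersection `L`
of `K` with finitely many of its conjugates which is commensurated by `G` and such that `L` is finite
or `K` has finite index in `G` or `X` splits along `L`.
(2) The same for every virtually (finitely generated) abelian subgroup `K`.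
(3) A commensurated convex cocompact subgroup `K` is finite or has finite index in `G`, or `X` splits
along `K`.
(4) If `G` acts on a connected locally finite graph and the stabiliser of a vertex `v` is convex
cocompact in `X`, then it is finite, or the orbit of `v` is finite, or `X` splits along it. -/
theorem result {X : Type} [MetricSpace X] [ProperSpace X] [Nonempty X] (hX : BruhatTits X)
    (hc : GeodesicallyComplete X)
    {G : Type} [Group G] [MulAction G X] [IsIsometricSMul G X] [ProperlyDiscontinuousSMul G X]
    (hcc : ∃ C : Set X, IsCompact C ∧ ∀ x : X, ∃ g : G, g • x ∈ C) :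
    (∀ K : Subgroup G, (ConvexCocompact X K ∧ ChainCondition K) ∨ VirtuallyAbelian K →
      ∃ F : Set G, F.Finite ∧ 1 ∈ F ∧ Commensurated (ConjInter K F) ∧
        ((ConjInter K F : Set G).Finite ∨ K.index ≠ 0 ∨ Splits X (ConjInter K F))) ∧
    (∀ K : Subgroup G, ConvexCocompact X K → Commensurated K →
      (K : Set G).Finite ∨ K.index ≠ 0 ∨ Splits X K) ∧
    (∀ (V : Type) (T : SimpleGraph V) (_ : MulAction G V),
      (∀ (g : G) (u v : V), T.Adj u v → T.Adj (g • u) (g • v)) → T.Connected →
      (∀ v, (T.neighborSet v).Finite) → ∀ v : V, ConvexCocompact X (MulAction.stabilizer G v) →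
        (MulAction.stabilizer G v : Set G).Finite ∨ (MulAction.orbit G v).Finite ∨
          Splits X (MulAction.stabilizer G v)) := by
  have hG : Pool.Agent.Y34.HB.Geo X G := ⟨inferInstance, inferInstance, inferInstance, hcc, hX⟩
  have hspl : ∀ L : Subgroup G, Pool.Agent.V7H77.CK.Spl X L → Splits X L := by
    rintro L ⟨B₀, h1, h2, Z, i1, i2, e, h3, h4⟩
    exact ⟨B₀, ⟨h1.ne, h1.closed, h1.conv, h1.inv, h1.cc⟩, h2, Z, i1, i2, e, h3, h4⟩
  have hcomm : ∀ K : Subgroup G, ConvexCocompact X K → Commensurated K →
      (K : Set G).Finite ∨ K.index ≠ 0 ∨ Splits X K := by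
    rintro K ⟨B, h1, h2, h3, h4, h5⟩ hK
    have hB : Pool.Agent.T6.H46.RC.CC K B := ⟨h1, h2, h3, h4, h5⟩
    rcases Pool.Agent.V7H77.CK.comm' hG hc hB hK with h | h | h
    · exact Or.inl h
    · exact Or.inr (Or.inl h)
    · exact Or.inr (Or.inr (hspl K h))
  refine ⟨?_, hcomm, ?_⟩
  · intro K hK
    obtain ⟨B, hB, hch⟩ : ∃ B : Set X, Pool.Agent.T6.H46.RC.CC K B ∧
        Pool.Agent.V7H77.CK.Chn K := by
      rcases hK with ⟨⟨B, h1, h2, h3, h4, h5⟩, hch⟩ | ⟨A, hle, hfin, hfg, hab⟩
      · exact ⟨B, ⟨h1, h2, h3, h4, h5⟩, hch⟩
      · obtain ⟨B', hB'⟩ := Pool.Agent.V7H57.RK.cc_abelian hG A hfg hab (Classical.arbitrary X)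
        obtain ⟨B, hB⟩ := Pool.Agent.V7H57.RK.cc_fin hG hle hfin hB'
        exact ⟨B, hB, Pool.Agent.V7H77.CK.chn_ab hfin hfg hab⟩
    obtain ⟨F, h1, h2, h3, h4⟩ := Pool.Agent.V7H77.CK.main' hG hc hB hch
    refine ⟨F, h1, h2, h3, ?_⟩
    rcases h4 with h | h | h
    · exact Or.inl h
    · exact Or.inr (Or.inl h)
    · exact Or.inr (Or.inr (hspl _ h))
  · intro V T _ hact hconn hlf v hv
    have hcm : Commensurated (MulAction.stabilizer G v) := by
      intro g
      have h1 := Pool.Agent.V7H77.CK.orbit_finite hlf hconn.preconnected hact v (g • v)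
      have h2 : (MulAction.stabilizer (MulAction.stabilizer G v) (g • v)).index ≠ 0 := by
        rw [MulAction.index_stabilizer]
        exact Set.ncard_ne_zero_of_mem (MulAction.mem_orbit_self (g • v)) h1
      have e : (ConjInter (MulAction.stabilizer G v) {1, g}).subgroupOf (MulAction.stabilizer G v) =
          MulAction.stabilizer (MulAction.stabilizer G v) (g • v) := by
        ext s
        rw [Subgroup.mem_subgroupOf, MulAction.mem_stabilizer_iff]
        have h3 := Pool.Agent.V7H77.CK.CI_pair (MulAction.stabilizer G v) g (s : G)
        refine h3.trans ?_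
        rw [MulAction.mem_stabilizer_iff, MulAction.mem_stabilizer_iff, mul_smul, mul_smul,
          inv_smul_eq_iff]
        exact ⟨fun h => h.2, fun h => ⟨s.2, h⟩⟩
      show ((ConjInter (MulAction.stabilizer G v) {1, g}).subgroupOf _).index ≠ 0
      rw [e]
      exact h2
    rcases hcomm (MulAction.stabilizer G v) hv hcm with h | h | h
    · exact Or.inl h
    · refine Or.inr (Or.inl ?_)
      rw [MulAction.index_stabilizer] at h
      exact Set.finite_of_ncard_ne_zero h
    · exact Or.inr (Or.inr h)

end Pool.Agent.Results.MP_ff40e8_al.ConjugateIntersectionsH77
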