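import Pool.Agent.V7H57.WL.Extm

/-!
# Rank rigidity for CAT(0) groups acting on finite-dimensional CAT(0) cube complexes without fixed
point, with hyperplane stabilisers which are virtually (virtually abelian)-by-(rank one)

Let `G` act geometrically on a geodesically complete proper CAT(0) space `X`, and let `G` act on a
set `V` with an invariant family of subsets (half-spaces) such that any two points of `V` are
separated by finitely many half-spaces, for each half-space there is a bound on the number of its
pairwise transverse translates, and some orbit in `V` is unbounded.  The main example: `V` is the set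
of the vertices of a finite-dimensional CAT(0) cube complex on which `G` acts without a fixed point;
the cube complex is not related to `X`, it need not be locally finite, and the action of `G` on it
need not be proper or cocompact.

Theorem.  Suppose that the stabiliser `K` of every half-space `P` which is mapped properly into
itself by some `t` in `G` (or at least the common stabiliser of `P` and `tᴸP` for some `L`)
* is virtually abelian, or
* is convex cocompact in `X` and contains a rank one isometry of its convex set (for instance if it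
  is an infinite hyperbolic group), or more generally is virtually an extension of such a group by
  a virtually abelian group which acts trivially on a factor of the convex set (for instance if it
  is virtually the product of an infinite hyperbolic group and `ℤⁿ`), or
* is convex cocompact in `X` and satisfies a chain condition.
Then `G` contains a rank one isometry of `X`, or `X` is a product of two spaces with more than one
point.  So the rank rigidity conjecture holds for these groups.  The hypothesis says that the
convex sets of the hyperplane stabilisers have at most one factor which is not Euclidean, and that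
this factor satisfies rank rigidity.  Examples are all CAT(0) groups which split over such subgroups,
for instance over virtually abelian subgroups.

The case of trees and edge stabilisers with rank one elements (with a further hypothesis) is the
starting result `ConvexCocompactEdgeGroups`.

Idea of the proof.
(1) Since `G` is finitely generated only finitely many orbits of half-spaces separate points of the
unbounded orbit, so many translates of one half-space separate two points of it; two of them are not
transverse, and so they are nested.  This gives `P` and `t` with `tP` properly contained in `P`, and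
by the hypothesis `A ⊇ B` and `s` with `sA` properly contained in `B`.
(2) If the common stabiliser is virtually abelian or satisfies the chain condition use `WL/Wid`.
Otherwise let `K` be a subgroup of finite index of it, cocompact on `E = Y × F`, and `ρ : K → Q` with
kernel `N`.  For `h` in `G` the distance of the fibre over a point of `Y` from `hE` is a convex
function on `Y`.  If all conjugates of the rank one element of `Q` have powers in `ρ(K ∩ hKh⁻¹)`
then this function is constant on the axes of these conjugates, so it is bounded and `ρ(K ∩ hKh⁻¹)`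
has finite index in `Q`; call `h` big in this case.  If `h₁` and `h₂` are not big then
`ρ(K ∩ h₁Kh₁⁻¹ ∩ κ(h₂Kh₂⁻¹)κ⁻¹)` is finite for some `κ` in `K` (file `WL/Fib`, with the starting
files `T6.H46.RC`).
(3) If moreover `h₁B ⊇ A` and `h₂A ⊆ B` then the common stabiliser of `h₁A` and `κh₂B` is virtually
contained in `N`, because it permutes the finitely many half-spaces between these two, and so it
satisfies the chain condition.  Again use `WL/Wid`: there is a pair `A₁ ⊇ B₁` such that all longer
pairs have commensurable stabilisers.  If these are finite then an element `s` with `sA₁` in `B₁` is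
a rank one isometry: otherwise look at the last moments at which the horizontal lines of a flat
half-plane bounded by the axis of `s` are near the complements of the half-spaces `sⁱA₁`; these are
monotone in `i`, use the pigeonhole principle.  If they are infinite one gets a factor as in (6).
(4) Otherwise all `h` with `hA ⊆ B` are big or all `h` with `A ⊆ hB` are big.  Passing to
complements assume the first.  By the chain condition for `N` there is `B' = h₀B` such that
`N ∩ stab(A, C)` has finite index in `N ∩ stab(A, B')` for all translates `C ⊆ B'` of `A` and `B`.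
Then the stabiliser of `A` and `B'`, with the convex set `E'`, is commensurable with its intersection
with the conjugate by `h` whenever `hA ⊆ B'`, and so `E'` is in a neighbourhood of `hE'`.
(5) Two-sidedness (`WL/Two`): if `E'` is in a neighbourhood of `hE'` then also of `h⁻¹E'`.  Let `E'`
be minimal.  The projection of `h⁻¹E'` to `E'` is an isometric embedding `f` of `E'` in `E'`, and its
image is cocompact under a subgroup.  If a ball of `E'` with a large radius contains as many
`ε`-separated points as possible then the ball of the same radius about the image of its centre is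
in the `ε`-neighbourhood of the image of `f`; move this ball to any other point of the image: all
points at distance at most one from the image are in the image, so `f` is surjective.
(6) So `E'` is near all translates `gE'` with `gA` and `A` nested.  If there are translates of `A`
disjoint from `A` and also translates which cover the complement of `A` then this is also true for
the `g` of these types (`WL/Nest`); otherwise one chooses representatives of the cosets such that
all translates have a common point, or a common point in the complement.  Different cosets of the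
group of the `g` with `E'` near `gE'` give pairwise transverse translates, so this group has finite
index in `G`, and a minimal closed convex invariant subset of `E'` is a factor of `X`
(`T6.H46.RC`).
-/

set_option autoImplicit false

namespace Pool.Agent.Results.MP_ff40e8_al.HalfSpaceFamiliesH57

open Set Metric
open scoped Pointwise

/-- The inequality of Bruhat and Tits: a complete metric space is CAT(0) if and only if any two
points `p`, `q` have a midpoint `m` such that
`d(x, m)² ≤ (d(x, p)² + d(x, q)²) / 2 - d(p, q)² / 4` for all `x`. -/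
def BruhatTits (X : Type) [MetricSpace X] : Prop := ∀ p q : X, ∃ m : X, ∀ x : X,
  dist x m ^ 2 ≤ (dist x p ^ 2 + dist x q ^ 2) / 2 - dist p q ^ 2 / 4

/-- Every geodesic segment extends to a geodesic line: for `p ≠ q` there is a line through `p` and
`q` (in a CAT(0) space it contains the unique geodesic segment from `p` to `q`). -/
def GeodesicallyComplete (X : Type) [MetricSpace X] : Prop :=
  ∀ p q : X, p ≠ q → ∃ c : ℝ → X, Isometry c ∧ c 0 = p ∧ c (dist p q) = q

/-- The line `c` bounds a flat half-plane in the subset `E`: there is an isometric embedding `H`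
of the Euclidean half-plane `ℝ × [0, ∞)` in `X`, with image in `E`, which extends `c`. -/
def BoundsHalfPlaneIn {X : Type} [MetricSpace X] (E : Set X) (c : ℝ → X) : Prop :=
  ∃ H : ℝ × NNReal → X,
    (∀ p q : ℝ × NNReal, dist (H p) (H q) ^ 2 = (p.1 - q.1) ^ 2 + ((p.2 : ℝ) - q.2) ^ 2) ∧
    (∀ p : ℝ × NNReal, H p ∈ E) ∧ ∀ t : ℝ, H (t, 0) = c t

/-- `g` translates a geodesic line `c` in `E` by `τ > 0`, and this axis does not bound a flat
half-plane in `E`.  For `E = univ` this says that `g` is a rank one isometry of `X`, and for an
invariant closed convex set `E` it says that `g` is a rank one isometry of `E`. -/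
def IsRankOneIn {X : Type} [MetricSpace X] {G : Type} [Group G] [MulAction G X] (E : Set X)
    (g : G) : Prop :=
  ∃ (τ : ℝ) (c : ℝ → X), 0 < τ ∧ Isometry c ∧ (∀ t, c t ∈ E) ∧ (∀ t, g • c t = c (t + τ)) ∧
    ¬ BoundsHalfPlaneIn E c

/-- `E` is a nonempty closed convex subset of `X`, preserved by the subgroup `K`, which acts
cocompactly on `E`. -/
def ConvexCocompact {X : Type} [MetricSpace X] {G : Type} [Group G] [MulAction G X]
    (K : Subgroup G) (E : Set X) : Prop :=
  E.Nonempty ∧ IsClosed E ∧
    (∀ p ∈ E, ∀ q ∈ E, ∀ m, dist p m + dist m q = dist p q → m ∈ E) ∧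
    (∀ g ∈ K, ∀ x ∈ E, g • x ∈ E) ∧
    ∃ C : Set X, IsCompact C ∧ ∀ x ∈ E, ∃ g ∈ K, g • x ∈ C

/-- `K` has a finitely generated abelian subgroup of finite index. -/
def VirtuallyAbelian {G : Type} [Group G] (K : Subgroup G) : Prop :=
  ∃ A' : Subgroup G, A' ≤ K ∧ A'.relIndex K ≠ 0 ∧ A'.FG ∧ ∀ a ∈ A', ∀ b ∈ A', a * b = b * a

/-- The subgroup of the elements `g` with `gC = C` and `gC' = C'`. -/
def PairStabilizer (G : Type) [Group G] {V : Type} [MulAction G V] (C C' : Set V) : Subgroup G :=
  MulAction.stabilizer G C ⊓ MulAction.stabilizer G C'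

/-- The half-spaces `C` and `C'` are transverse: all four quadrants are nonempty. -/
def Transverse {V : Type} (C C' : Set V) : Prop :=
  (C ∩ C').Nonempty ∧ (C ∩ C'ᶜ).Nonempty ∧ (Cᶜ ∩ C').Nonempty ∧ (Cᶜ ∩ C'ᶜ).Nonempty

/-- `𝓗` is a `G`-invariant family of subsets of `V` (half-spaces) such that any two points are
separated by finitely many members, and for every member `P` there is a bound on the cardinality of
the sets of pairwise transverse translates of `P`. -/
def IsHalfSpaceFamily (G : Type) [Group G] {V : Type} [MulAction G V] (𝓗 : Set (Set V)) : Prop :=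
  (∀ P ∈ 𝓗, ∀ g : G, g • P ∈ 𝓗) ∧ (∀ u v : V, {P : Set V | P ∈ 𝓗 ∧ u ∈ P ∧ v ∉ P}.Finite) ∧
    ∀ P ∈ 𝓗, ∃ d : ℕ, ∀ S : Finset G,
      (∀ g ∈ S, ∀ g' ∈ S, g ≠ g' → Transverse (g • P) (g' • P)) → S.card ≤ d

/-- The orbit of `v` is unbounded: for every `n` there is `g` such that at least `n` members of `𝓗`
contain `v` and not `gv`. -/
def UnboundedOrbit (G : Type) [Group G] {V : Type} [MulAction G V] (𝓗 : Set (Set V)) (v : V) :
    Prop :=
  ∀ n : ℕ, ∃ (g : G) (F : Finset (Set V)), n ≤ F.card ∧ ∀ P ∈ F, P ∈ 𝓗 ∧ v ∈ P ∧ g • v ∉ P

/-- The chain condition for the common stabilisers of finite chains of half-spaces: if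
`J₀ ≥ J₁ ≥ J₂ ≥ ...` are subgroups of `K`, each of which is the common stabiliser of a finite set of
members of `𝓗` and complements of members which is totally ordered by inclusion, then some
`Jₙ₊₁` has finite index in `Jₙ`. -/
def ChainCondition {G : Type} [Group G] {V : Type} [MulAction G V] (𝓗 : Set (Set V))
    (K : Subgroup G) : Prop :=
  ∀ J : ℕ → Subgroup G, J 0 ≤ K → (∀ n, J (n + 1) ≤ J n) →
    (∀ n, ∃ F : Finset (Set V), (∀ C ∈ F, C ∈ 𝓗 ∨ Cᶜ ∈ 𝓗) ∧
      (∀ C ∈ F, ∀ C' ∈ F, C ⊆ C' ∨ C' ⊆ C) ∧ J n = ⨅ C ∈ F, MulAction.stabilizer G C) →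
    ∃ n, (J (n + 1)).relIndex (J n) ≠ 0

/-- `K` is (virtually abelian)-by-(rank one): it is convex cocompact in `X` with a convex set
`E = Y × F` (`ℓ²` product), there is a homomorphism `ρ` of `K` onto a group `Q` which acts
geometrically (isometrically, properly discontinuously, cocompactly) on the proper CAT(0) space `Y`
such that the projection of `E` to `Y` is equivariant, the kernel of `ρ` is virtually abelian, and
`Q` contains a rank one isometry of `Y`.  For instance `K` contains a rank one isometry of its convex
set (let `Q = K`, `Y = E` and let `F` be a point), or `K = Q × ℤⁿ` with a group `Q` of this kind, for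
example an infinite hyperbolic group. -/
def IsRankOneByAbelian (X : Type) [MetricSpace X] {G : Type} [Group G] [MulAction G X]
    (K : Subgroup G) : Prop :=
  ∃ (E : Set X) (Q : Type) (_ : Group Q) (Y : Type) (_ : MetricSpace Y) (_ : MulAction Q Y)
    (F : Type) (_ : MetricSpace F) (ρ : K →* Q) (e : E ≃ Y × F),
    ConvexCocompact K E ∧ (ProperSpace Y ∧ BruhatTits Y) ∧
    (IsIsometricSMul Q Y ∧ ProperlyDiscontinuousSMul Q Y ∧
      ∃ C : Set Y, IsCompact C ∧ ∀ y : Y, ∃ q : Q, q • y ∈ C) ∧
    (Function.Surjective ρ ∧ VirtuallyAbelian (ρ.ker.map K.subtype)) ∧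
    (∀ x x' : E, dist x x' ^ 2 = dist (e x).1 (e x').1 ^ 2 + dist (e x).2 (e x').2 ^ 2) ∧
    (∀ (a : K) (x x' : E), (x' : X) = (a : G) • (x : X) → (e x').1 = ρ a • (e x).1) ∧
    ∃ q : Q, IsRankOneIn (univ : Set Y) q

/-- The subgroup `K` is virtually abelian, or a subgroup of finite index of it is (virtually
abelian)-by-(rank one), or `K` is convex cocompact in `X` with the chain condition. -/
def IsRigid (X : Type) [MetricSpace X] {G : Type} [Group G] [MulAction G X] {V : Type}
    [MulAction G V] (𝓗 : Set (Set V)) (K : Subgroup G) : Prop :=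
  VirtuallyAbelian K ∨ (∃ K' ≤ K, K'.relIndex K ≠ 0 ∧ IsRankOneByAbelian X K') ∨
    ((∃ E : Set X, ConvexCocompact K E) ∧ ChainCondition 𝓗 K)

open Pool.Agent.T6.H46.RC Pool.Agent.V7H57.RK Pool.Agent.V7H57.WL

/-- Let `G` act geometrically (by isometries, properly discontinuously, cocompactly) on a nonempty
proper geodesically complete CAT(0) space `X`, and let `G` act on a set `V` with an invariant family
`𝓗` of half-spaces such that any two points are separated by finitely many members and for each
member there is a bound on the number of its pairwise transverse translates.  Suppose that some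
point of `V` has an unbounded orbit, and that if `P` in `𝓗` and `t` in `G` are such that `tP` is a
proper subset of `P` then there are `A ⊇ B` in `𝓗` (for example `A = P`, `B = tᴸP`) such that `sA` is
a proper subset of `B` for some `s` in `G` and the common stabiliser of `A` and `B` is virtually
abelian, or virtually (virtually abelian)-by-(rank one), or convex cocompact in `X` with the chain
condition.  Then `G` contains a rank one isometry of `X`, or `X` is isometric to a product `Z × B₀`,
where `Z` and `B₀` have more than one point and `B₀` is a closed convex subset of `X`, on which the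
common stabiliser of two nested members of `𝓗` acts cocompactly. -/
theorem result {X : Type} [MetricSpace X] [ProperSpace X] [Nonempty X] (hX : BruhatTits X)
    (hc : GeodesicallyComplete X)
    {G : Type} [Group G] [MulAction G X] [IsIsometricSMul G X] [ProperlyDiscontinuousSMul G X]
    (hcc : ∃ C : Set X, IsCompact C ∧ ∀ x : X, ∃ g : G, g • x ∈ C)
    {V : Type} [MulAction G V] {𝓗 : Set (Set V)} (h𝓗 : IsHalfSpaceFamily G 𝓗)
    {v : V} (hv : UnboundedOrbit G 𝓗 v)
    (hK : ∀ P ∈ 𝓗, ∀ t : G, t • P ⊂ P → ∃ A ∈ 𝓗, ∃ B ∈ 𝓗, ∃ s : G, B ⊆ A ∧ s • A ⊂ B ∧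
      IsRigid X 𝓗 (PairStabilizer G A B)) :
    (∃ g : G, IsRankOneIn (univ : Set X) g) ∨
    ∃ P ∈ 𝓗, ∃ Q ∈ 𝓗, Q ⊆ P ∧ ∃ B₀ : Set X,
      ConvexCocompact (PairStabilizer G P Q) B₀ ∧ Nontrivial B₀ ∧
      ∃ (Z : Type) (_ : MetricSpace Z) (_ : Nontrivial Z) (e : X ≃ Z × B₀), ∀ x x' : X,
        dist x x' ^ 2 = dist (e x).1 (e x').1 ^ 2 + dist (e x).2 (e x').2 ^ 2 := by
  have hG : Pool.Agent.Y34.HB.Geo X G := ⟨inferInstance, inferInstance, inferInstance, hcc, hX⟩
  set o : X := Classical.arbitrary X
  obtain ⟨hinv, hsep, hwid⟩ := h𝓗
  obtain ⟨P₁, hP₁, t₁, ht₁⟩ := exists_skewer hG o hinv hsep hwid v hv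
  obtain ⟨P, hP, Q, hQ𝓗, s, hQP, hs, hL⟩ := hK P₁ hP₁ t₁ ht₁
  obtain ⟨d, hd⟩ := hwid P hP
  have hsep' : ∀ u v : V, {C : Set V | C ∈ Wp G P Q ∧ u ∈ C ∧ v ∉ C}.Finite := by
    intro u v
    refine (hsep u v).subset ?_
    rintro C ⟨⟨g, rfl | rfl⟩, h1, h2⟩
    · exact ⟨hinv P hP g, h1, h2⟩
    · exact ⟨hinv Q hQ𝓗 g, h1, h2⟩
  have hd' := width_pair hd Q
  have key : ((∃ g : G, Pool.Agent.Y34.EL.RankOne X g) ∨ ∃ (a h : G) (B₀ : Set X), P ⊆ a • P ∧
      h • Q ⊆ Q ∧ CC (Kp G (a • P) (h • Q)) B₀ ∧ Nontrivial B₀ ∧
      ∃ (Z : Type) (_ : MetricSpace Z) (_ : Nontrivial Z) (e : X ≃ Z × B₀), ∀ x x' : X,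
        dist x x' ^ 2 = dist (e x).1 (e x').1 ^ 2 + dist (e x).2 (e x').2 ^ 2) := by
    rcases hL with ⟨A', k1, k2, k3, k4⟩ | ⟨K', l1, l2, E, R, iR, Y, iY, iA, F, iF, ρ, e,
      ⟨b1, b2, b3, b4, b5⟩, ⟨y1, y2⟩, ⟨y3, y4, y5⟩, ⟨r1, A', k1, k2, k3, k4⟩, r2, r3, q, τ, c, hτ,
      hci, -, hqc, hno⟩ | ⟨⟨E, b1, b2, b3, b4, b5⟩, hch⟩
    · obtain ⟨B', hB'⟩ := cc_abelian hG A' k3 k4 o
      exact sep_main hG hc o hsep' hQP hs (cc_fin hG k1 k2 hB') hd'
        (hasStb_of_chain hsep' hQP hs fun J h1 h2 _ => chain_ab k2 k3 k4 J h1 h2)
    · have hE' : CC K' E := ⟨b1, b2, b3, b4, b5⟩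
      have hF : Fib hE' ρ e :=
        ⟨⟨y1, y3, y4, y5, y2⟩, r1, r2, fun a x => r3 a x _ rfl⟩
      have hHP : Pool.Agent.Y34.HB.HP c = ∅ := by
        rw [eq_empty_iff_forall_notMem]
        rintro H ⟨h1, h2⟩
        exact hno ⟨H, h1, fun _ => mem_univ _, h2⟩
      exact ext_main hG hc hsep' hQP hs hd' l1 l2 hF hτ ⟨hci, hqc⟩ hHP
        fun J h1 h2 => chain_ab k2 k3 k4 J h1 h2
    · refine sep_main hG hc o hsep' hQP hs ⟨E, b1, b2, b3, b4, b5⟩ hd'
        (hasStb_of_chain hsep' hQP hs fun J h1 h2 h3 => hch J h1 h2 fun n => ?_)
      obtain ⟨F, f1, f2, f3⟩ := h3 n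
      refine ⟨F, fun C hC => ?_, f2, f3⟩
      rcases f1 C hC with ⟨g, h | h⟩ | ⟨g, h | h⟩
      · exact Or.inl (h ▸ hinv P hP g)
      · exact Or.inl (h ▸ hinv Q hQ𝓗 g)
      · exact Or.inr (h ▸ hinv P hP g)
      · exact Or.inr (h ▸ hinv Q hQ𝓗 g)
  rcases key with ⟨g, τ', c', hτ', ⟨hc1, hc2⟩, he⟩ | ⟨a, h, B₀, h1, h2, h₀, hn, hsplit⟩
  · left
    refine ⟨g, τ', c', hτ', hc1, fun _ => mem_univ _, hc2, ?_⟩
    rintro ⟨H, hH1, -, hH2⟩
    have : H ∈ Pool.Agent.Y34.HB.HP c' := ⟨hH1, hH2⟩
    rw [he] at this
    exact this
  · exact Or.inr ⟨a • P, hinv P hP a, h • Q, hinv Q hQ𝓗 h, h2.trans (hQP.trans h1), B₀,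
      ⟨h₀.ne, h₀.closed, h₀.conv, h₀.inv, h₀.cc⟩, hn, hsplit⟩

end Pool.Agent.Results.MP_ff40e8_al.HalfSpaceFamiliesH57
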