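import Pool.Agent.V7H57.WL.Wid

/-!
# Rank rigidity for CAT(0) groups with a half-space with virtually abelian pair stabilisers

Let `G` act geometrically on a geodesically complete proper CAT(0) space `X`, and let `G` act on a
set `V`.  Let `A ⊇ B` be subsets of `V` (half-spaces) such that any two points of `V` are separated
by only finitely many translates of `A` and `B`, and let `t` in `G` be such that `tA` is a proper
subset of `B`.  Suppose that only boundedly many translates of the pair `(A, B)` are pairwise
transverse.  This holds for instance
* if the system of the half-spaces has finite width, for example if `V` is the set of the vertices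
  of a finite-dimensional CAT(0) cube complex (with any action of `G`, it need not be proper or
  cocompact, and the cube complex need not be locally finite or related to `X`);
* if `A` and `B` are strongly separated (no translate of the wall of `A` or `B` crosses both);
* if `V` is the set of the vertices of a tree.
Theorem: if the common stabiliser of `A` and `B` is virtually abelian then `G` contains a rank one
isometry of `X`, or `X` is a product of two spaces with more than one point.  More generally it is
enough that this group is convex cocompact in `X` and satisfies a chain condition, or that there is a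
stable pair of half-spaces.

So rank rigidity holds for all geometric actions (on any CAT(0) space) of groups which have a
finite-dimensional cubulation, or a splitting, in which two walls, one of them mapped across the
other by an element of `G`, have a virtually abelian common stabiliser.  For `A = B` this is the
case of a virtually abelian codimension one subgroup `stab(A)`.

Idea of the proof.
(1) If an element `t` with `tP ⊂ P` is not a rank one isometry then the common stabiliser of
`P, tP, …, tⁿP` is infinite for all `n` (file `WL/Free`): look at the last moments at which the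
horizontal lines of a flat half-plane bounded by the axis of `t` are near the complements of the
half-spaces `tⁱP`; these are monotone in `i`, use the pigeonhole principle.
(2) The common stabiliser of a pair `P ⊇ Q` of half-spaces permutes the finitely many half-spaces
between `Q` and `P`.  So the stabilisers `K(P, Q)` are decreasing up to finite index when the pair
gets longer, and by the chain condition there is a pair such that for all longer pairs the
stabilisers have finite index in each other.
(3) If `K(P, Q)` is finite for this pair then (1) gives a rank one isometry `t`, `tP ⊂ Q`.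
(4) Otherwise the elements `g` such that `gtⁱP` and `tʲP` are nested for some `i`, `j` commensurate
`K(P, Q)`; if only one kind of disjoint or covering pairs of translates exists then one has to
choose `i` and `j` so that the half-spaces have a common point, or a common point in the
complement.  Different cosets of the commensurator give pairwise transverse translates, so the
commensurator has finite index in `G`.
(5) A closed convex set on which `K(P, Q)` acts cocompactly is near all its translates by a
subgroup of finite index, and so a minimal invariant subset is a factor of `X`.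
-/

set_option autoImplicit false

namespace Pool.Agent.Results.MP_ff40e8_al.RankRigidityHalfSpacesH57

open Set Metric
open scoped Pointwise

/-- The inequality of Bruhat and Tits: a complete metric space is CAT(0) if and only if any two
points `p`, `q` have a midpoint `m` such that
`d(x, m)² ≤ (d(x, p)² + d(x, q)²) / 2 - d(p, q)² / 4` for all `x`. -/
def BruhatTits (X : Type) [MetricSpace X] : Prop := ∀ p q : X, ∃ m : X, ∀ x : X,
  dist x m ^ 2 ≤ (dist x p ^ 2 + dist x q ^ 2) / 2 - dist p q ^ 2 / 4

/-- Every geodesic segment extends to a geodesic line: for `p ≠ q` there is a line through `p` and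
`q` (in a CAT(0) space it contains the unique geodesic segment from `p` to `q`). -/
def GeodesicallyComplete (X : Type) [MetricSpace X] : Prop :=
  ∀ p q : X, p ≠ q → ∃ c : ℝ → X, Isometry c ∧ c 0 = p ∧ c (dist p q) = q

/-- The line `c` bounds a flat half-plane: there is an isometric embedding `H` of the Euclidean
half-plane `ℝ × [0, ∞)` in `X` which extends `c`. -/
def BoundsHalfPlane {X : Type} [MetricSpace X] (c : ℝ → X) : Prop :=
  ∃ H : ℝ × NNReal → X,
    (∀ p q : ℝ × NNReal, dist (H p) (H q) ^ 2 = (p.1 - q.1) ^ 2 + ((p.2 : ℝ) - q.2) ^ 2) ∧
    ∀ t : ℝ, H (t, 0) = c t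

/-- `g` is a rank one isometry of `X`: it translates a geodesic line `c` by `τ > 0`, and this axis
does not bound a flat half-plane. -/
def IsRankOne (X : Type) [MetricSpace X] {G : Type} [Group G] [MulAction G X] (g : G) : Prop :=
  ∃ (τ : ℝ) (c : ℝ → X), 0 < τ ∧ Isometry c ∧ (∀ t, g • c t = c (t + τ)) ∧ ¬ BoundsHalfPlane c

/-- `E` is a nonempty closed convex subset of `X`, preserved by the subgroup `K`, which acts
cocompactly on `E`. -/
def ConvexCocompact {X : Type} [MetricSpace X] {G : Type} [Group G] [MulAction G X]
    (K : Subgroup G) (E : Set X) : Prop :=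
  E.Nonempty ∧ IsClosed E ∧
    (∀ p ∈ E, ∀ q ∈ E, ∀ m, dist p m + dist m q = dist p q → m ∈ E) ∧
    (∀ g ∈ K, ∀ x ∈ E, g • x ∈ E) ∧
    ∃ C : Set X, IsCompact C ∧ ∀ x ∈ E, ∃ g ∈ K, g • x ∈ C

/-- `K` has a finitely generated abelian subgroup of finite index. -/
def VirtuallyAbelian {G : Type} [Group G] (K : Subgroup G) : Prop :=
  ∃ A' : Subgroup G, A' ≤ K ∧ A'.relIndex K ≠ 0 ∧ A'.FG ∧ ∀ a ∈ A', ∀ b ∈ A', a * b = b * a

/-- The subgroup of the elements `g` with `gC = C` and `gC' = C'`. -/
def PairStabilizer (G : Type) [Group G] {V : Type} [MulAction G V] (C C' : Set V) : Subgroup G :=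
  MulAction.stabilizer G C ⊓ MulAction.stabilizer G C'

/-- `C` is a translate of `A` or of `B`. -/
def IsTranslate (G : Type) [Group G] {V : Type} [MulAction G V] (A B C : Set V) : Prop :=
  ∃ g : G, C = g • A ∨ C = g • B

/-- The chain condition for the common stabilisers of finite chains of half-spaces: if
`J₀ ≥ J₁ ≥ J₂ ≥ ...` are subgroups of `K`, each of which is the common stabiliser of a finite set of
translates of `A` and `B` and complements of such translates which is totally ordered by inclusion,
then some `Jₙ₊₁` has finite index in `Jₙ`. -/
def ChainCondition {G : Type} [Group G] {V : Type} [MulAction G V] (A B : Set V)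
    (K : Subgroup G) : Prop :=
  ∀ J : ℕ → Subgroup G, J 0 ≤ K → (∀ n, J (n + 1) ≤ J n) →
    (∀ n, ∃ F : Finset (Set V), (∀ C ∈ F, IsTranslate G A B C ∨ IsTranslate G A B Cᶜ) ∧
      (∀ C ∈ F, ∀ C' ∈ F, C ⊆ C' ∨ C' ⊆ C) ∧ J n = ⨅ C ∈ F, MulAction.stabilizer G C) →
    ∃ n, (J (n + 1)).relIndex (J n) ≠ 0

/-- There is a stable pair: translates `P ⊇ A` and `Q ⊆ B` of `A` and `B` such that for all longer
pairs `P' ⊇ P`, `Q' ⊆ Q` of translates or complements of translates the common stabiliser of `P'`
and `Q'` (its intersection with the common stabiliser of `P` and `Q`) has finite index in the common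
stabiliser of `P` and `Q`.  This follows from the chain condition up to a case in which only
translates `P'`, `Q'` are needed; it holds for instance for strongly separated half-spaces of a
locally finite CAT(0) cube complex, because there the common stabilisers of longer pairs are
commensurable with the stabilisers of vertices. -/
def HasStablePair (G : Type) [Group G] {V : Type} [MulAction G V] (A B : Set V) : Prop :=
  ∃ P Q : Set V, IsTranslate G A B P ∧ IsTranslate G A B Q ∧ A ⊆ P ∧ Q ⊆ B ∧
    ∀ P' Q' : Set V, (IsTranslate G A B P' ∨ IsTranslate G A B P'ᶜ) →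
      (IsTranslate G A B Q' ∨ IsTranslate G A B Q'ᶜ) → P ⊆ P' → Q' ⊆ Q →
      (PairStabilizer G P' Q').relIndex (PairStabilizer G P Q) ≠ 0

/-- The half-spaces `C` and `C'` are transverse: all four quadrants are nonempty. -/
def Transverse {V : Type} (C C' : Set V) : Prop :=
  (C ∩ C').Nonempty ∧ (C ∩ C'ᶜ).Nonempty ∧ (Cᶜ ∩ C').Nonempty ∧ (Cᶜ ∩ C'ᶜ).Nonempty

/-- The translates `(gA, gB)` and `(g'A, g'B)` of the pair `(A, B)` are transverse: both members of
the first are transverse to both members of the second. -/
def TransversePairs {G : Type} [Group G] {V : Type} [MulAction G V] (A B : Set V) (g g' : G) :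
    Prop :=
  Transverse (g • A) (g' • A) ∧ Transverse (g • A) (g' • B) ∧
    Transverse (g • B) (g' • A) ∧ Transverse (g • B) (g' • B)

open Pool.Agent.T6.H46.RC Pool.Agent.V7H57.RK Pool.Agent.V7H57.WL

/-- Let `G` act geometrically (by isometries, properly discontinuously, cocompactly) on a nonempty
proper geodesically complete CAT(0) space `X`, and let `G` act on a set `V`.  Let `B ⊆ A` be subsets
of `V` such that for all `u`, `v` in `V` only finitely many translates of `A` and `B` contain `u` and
not `v`.  Let `t` in `G` be such that `tA` is a proper subset of `B`.  Suppose that at most `d`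
translates of the pair `(A, B)` are pairwise transverse, and that the common stabiliser of `A` and
`B`
* is virtually abelian and finitely generated, or
* is convex cocompact in `X`, and it satisfies the chain condition or there is a stable pair.
Then `G` contains a rank one isometry of `X`, or `X` is isometric to a product `Z × B₀`, where `Z`
and `B₀` have more than one point and `B₀` is a closed convex subset of `X`, on which the common
stabiliser of `aA` and `hB` acts cocompactly, for some `a`, `h` in `G` with `A ⊆ aA` and
`hB ⊆ B`. -/
theorem result {X : Type} [MetricSpace X] [ProperSpace X] [Nonempty X] (hX : BruhatTits X)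
    (hc : GeodesicallyComplete X)
    {G : Type} [Group G] [MulAction G X] [IsIsometricSMul G X] [ProperlyDiscontinuousSMul G X]
    (hcc : ∃ C : Set X, IsCompact C ∧ ∀ x : X, ∃ g : G, g • x ∈ C)
    {V : Type} [MulAction G V] {A B : Set V} (hBA : B ⊆ A)
    (hsep : ∀ u v : V, {C : Set V | IsTranslate G A B C ∧ u ∈ C ∧ v ∉ C}.Finite)
    {t : G} (ht : t • A ⊂ B)
    (d : ℕ) (hd : ∀ S : Finset G, (∀ g ∈ S, ∀ g' ∈ S, g ≠ g' → TransversePairs A B g g') →
      S.card ≤ d)
    (hK : VirtuallyAbelian (PairStabilizer G A B) ∨
      ((∃ E : Set X, ConvexCocompact (PairStabilizer G A B) E) ∧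
        (ChainCondition A B (PairStabilizer G A B) ∨ HasStablePair G A B))) :
    (∃ g : G, IsRankOne X g) ∨
    ∃ (a h : G) (B₀ : Set X), A ⊆ a • A ∧ h • B ⊆ B ∧
      ConvexCocompact (PairStabilizer G (a • A) (h • B)) B₀ ∧ Nontrivial B₀ ∧
      ∃ (Z : Type) (_ : MetricSpace Z) (_ : Nontrivial Z) (e : X ≃ Z × B₀), ∀ x x' : X,
        dist x x' ^ 2 = dist (e x).1 (e x').1 ^ 2 + dist (e x).2 (e x').2 ^ 2 := by
  have hG : Pool.Agent.Y34.HB.Geo X G := ⟨inferInstance, inferInstance, inferInstance, hcc, hX⟩
  set o : X := Classical.arbitrary X
  have hE : ∃ E : Set X, CC (Kp G A B) E := by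
    rcases hK with ⟨A', h1, h2, h3, h4⟩ | ⟨⟨E, b1, b2, b3, b4, b5⟩, -⟩
    · obtain ⟨B', hB'⟩ := cc_abelian hG A' h3 h4 o
      exact cc_fin hG h1 h2 hB'
    · exact ⟨E, b1, b2, b3, b4, b5⟩
  have hstb : HasStb G A B := by
    rcases hK with ⟨A', k1, k2, k3, k4⟩ | ⟨-, hch | ⟨P, Q, hP, hQ, h1, h2, h3⟩⟩
    · exact hasStb_of_chain hsep hBA ht fun J h1 h2 _ => chain_ab k2 k3 k4 J h1 h2
    · exact hasStb_of_chain hsep hBA ht hch
    · exact ⟨P, hP, Q, hQ, h1, h2, fun P' hP' Q' hQ' => h3 P' Q' (Or.inl hP') (Or.inl hQ'),
        fun _ P' hP' Q' hQ' => h3 P' Q' hP' hQ'⟩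
  rcases sep_main hG hc o hsep hBA ht hE hd hstb with ⟨g, τ', c', hτ', ⟨hc1, hc2⟩, he⟩ | h
  · left
    refine ⟨g, τ', c', hτ', hc1, hc2, ?_⟩
    rintro ⟨H, hH1, hH2⟩
    have : H ∈ Pool.Agent.Y34.HB.HP c' := ⟨hH1, hH2⟩
    rw [he] at this
    exact this
  · right
    obtain ⟨a, h, B₀, h1, h2, h₀, hn, hsplit⟩ := h
    exact ⟨a, h, B₀, h1, h2, ⟨h₀.ne, h₀.closed, h₀.conv, h₀.inv, h₀.cc⟩, hn, hsplit⟩

end Pool.Agent.Results.MP_ff40e8_al.RankRigidityHalfSpacesH57
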