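import Pool.Agent.V7H57.WL.Free

/-!
# Elements of CAT(0) groups which skewer a half-space: rank one, or a commensurated subgroup

Let `G` act geometrically on a proper CAT(0) space `X`, and let `G` act on a set `V`.  Let `A` be a
subset of `V` (a half-space) such that any two points of `V` are separated by only finitely many
translates of `A`.  For instance `V = G` and `A` is an almost invariant set, or `V` is the set of
the vertices of a tree or of a CAT(0) cube complex (which need not be related to `X`, and need not
be locally finite or finite-dimensional) and `A` is a half-space.  Let `t` in `G` skewer the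
half-space, that is, `tA` is a proper subset of `A`.  Let `Kₙ` be the common stabiliser of
`A, tA, …, tⁿA`.

Theorem: either `t` is a rank one isometry of `X` or all the groups `Kₙ` are infinite.  If some `Kₘ`
is virtually abelian and `t` is not rank one then `t` commensurates the infinite group `Kₙ` for some
`n ≥ m`; moreover `Kₘ` contains `ℤ²`, or `t²` and an element which fixes all the half-spaces `tˡA`
generate a subgroup `ℤ²`.  In particular `t` is a rank one isometry if some `Kₙ` is finite.

So this gives the alternative (iii) of rank rigidity for groups with a half-space which is skewered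
by an element `t` such that no infinite subgroup of `Kₘ` is commensurated by `t`.  Geodesic
completeness is not used, there is no assumption on the stabiliser of `A`, on crossing translates of
`A` or on other elements of `G`, and the element `t` itself is the rank one isometry.

Idea of the proof.  Suppose that the axis of `t` bounds a flat half-plane.  Its line at height `q`
comes from the complement of `tⁱA` and ends in `tⁱA` (that is, the orbit points near the line do).
Let `βᵢ` be the last moment at which the line is near the complement of `tⁱA`.  The half-spaces are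
nested, so `βᵢ` is a monotone function of `i`, and `|βᵢ - iτ|` is bounded by a constant which
depends on `q`, but not on `i`.  By the pigeonhole principle there are `k + 1` consecutive `βᵢ` in
an interval of length `kτ + 1`.  So for all `q` there are points at distance at least `q` from the
axis near which `k + 1` consecutive translates are crossed, within a distance which does not depend
on `q`; modulo `G` there are finitely many such configurations, and so the common stabiliser of
`k + 1` consecutive translates is infinite.  The chain of the common stabilisers is constant up to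
finite index, on both sides, if one of them is virtually abelian.
-/

set_option autoImplicit false

namespace Pool.Agent.Results.MP_ff40e8_al.SkewersH57

open Set Metric
open scoped Pointwise

/-- The inequality of Bruhat and Tits: a complete metric space is CAT(0) if and only if any two
points `p`, `q` have a midpoint `m` such that
`d(x, m)² ≤ (d(x, p)² + d(x, q)²) / 2 - d(p, q)² / 4` for all `x`. -/
def BruhatTits (X : Type) [MetricSpace X] : Prop := ∀ p q : X, ∃ m : X, ∀ x : X,
  dist x m ^ 2 ≤ (dist x p ^ 2 + dist x q ^ 2) / 2 - dist p q ^ 2 / 4

/-- The line `c` bounds a flat half-plane: there is an isometric embedding `H` of the Euclidean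
half-plane `ℝ × [0, ∞)` in `X` which extends `c`. -/
def BoundsHalfPlane {X : Type} [MetricSpace X] (c : ℝ → X) : Prop :=
  ∃ H : ℝ × NNReal → X,
    (∀ p q : ℝ × NNReal, dist (H p) (H q) ^ 2 = (p.1 - q.1) ^ 2 + ((p.2 : ℝ) - q.2) ^ 2) ∧
    ∀ t : ℝ, H (t, 0) = c t

/-- `g` is a rank one isometry of `X`: it translates a geodesic line `c` by `τ > 0`, and this axis
does not bound a flat half-plane. -/
def IsRankOne (X : Type) [MetricSpace X] {G : Type} [Group G] [MulAction G X] (g : G) : Prop :=
  ∃ (τ : ℝ) (c : ℝ → X), 0 < τ ∧ Isometry c ∧ (∀ t, g • c t = c (t + τ)) ∧ ¬ BoundsHalfPlane c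

/-- `K` has a finitely generated abelian subgroup of finite index. -/
def VirtuallyAbelian {G : Type} [Group G] (K : Subgroup G) : Prop :=
  ∃ A' : Subgroup G, A' ≤ K ∧ A'.relIndex K ≠ 0 ∧ A'.FG ∧ ∀ a ∈ A', ∀ b ∈ A', a * b = b * a

/-- The common stabiliser of the sets `tⁱA, tⁱ⁺¹A, …, tʲA`. -/
def CommonStabilizer {G V : Type} [Group G] [MulAction G V] (t : G) (A : Set V) (i j : ℤ) :
    Subgroup G :=
  ⨅ l ∈ Set.Icc i j, MulAction.stabilizer G (t ^ l • A)

open Pool.Agent.T6.H46.RC Pool.Agent.V7H57.RK Pool.Agent.V7H57.WL

/-- Let `G` act geometrically (by isometries, properly discontinuously, cocompactly) on a nonempty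
proper CAT(0) space `X`, and let `G` act on a set `V`.  Let `A` be a subset of `V` such that for all
`u`, `v` in `V` only finitely many translates of `A` contain `u` and not `v`.  Let `t` in `G` be such
that `tA` is a proper subset of `A`.  Then
* `t` is a rank one isometry of `X`, or
* the common stabiliser `Kₙ` of `A, tA, …, tⁿA` is infinite for all `n`, and for all `m` such that
  `Kₘ` is virtually abelian
  - there is an `n ≥ m` such that `t` commensurates `Kₙ`: the subgroup `Kₙ₊₁` has finite index in
    `Kₙ` and in the common stabiliser of `tA, …, tⁿ⁺¹A`, which is `t Kₙ t⁻¹`;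
  - `Kₘ` contains a subgroup `ℤ²`, or there is a subgroup `ℤ²` of `G` generated by `t²` and an
    element which fixes `tˡA` for all integers `l`. -/
theorem result {X : Type} [MetricSpace X] [ProperSpace X] [Nonempty X] (hX : BruhatTits X)
    {G : Type} [Group G] [MulAction G X] [IsIsometricSMul G X] [ProperlyDiscontinuousSMul G X]
    (hcc : ∃ C : Set X, IsCompact C ∧ ∀ x : X, ∃ g : G, g • x ∈ C)
    {V : Type} [MulAction G V] {A : Set V}
    (hsep : ∀ u v : V, {B : Set V | (∃ g : G, B = g • A) ∧ u ∈ B ∧ v ∉ B}.Finite)
    {t : G} (ht : t • A ⊂ A) :
    IsRankOne X t ∨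
    ((∀ n : ℕ, (CommonStabilizer t A 0 n : Set G).Infinite) ∧
      ∀ m : ℕ, VirtuallyAbelian (CommonStabilizer t A 0 m) →
        (∃ n : ℕ, m ≤ n ∧
          (CommonStabilizer t A 0 (n + 1)).relIndex (CommonStabilizer t A 0 n) ≠ 0 ∧
          (CommonStabilizer t A 0 (n + 1)).relIndex (CommonStabilizer t A 1 (n + 1)) ≠ 0) ∧
        ((∃ φ : Multiplicative (ℤ × ℤ) →* G, Function.Injective φ ∧
            ∀ z, φ z ∈ CommonStabilizer t A 0 m) ∨
          ∃ φ : Multiplicative (ℤ × ℤ) →* G, Function.Injective φ ∧
            φ (Multiplicative.ofAdd (1, 0)) = t ^ 2 ∧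
            ∀ l : ℤ, φ (Multiplicative.ofAdd (0, 1)) • (t ^ l • A) = t ^ l • A)) := by
  have hG : Pool.Agent.Y34.HB.Geo X G := ⟨inferInstance, inferInstance, inferInstance, hcc, hX⟩
  set o : X := Classical.arbitrary X
  rcases skew_free hG o hsep ht with ⟨τ', c', hτ', ⟨hc1, hc2⟩, he⟩ | hinf
  · left
    refine ⟨τ', c', hτ', hc1, hc2, ?_⟩
    rintro ⟨H, hH1, hH2⟩
    have : H ∈ Pool.Agent.Y34.HB.HP c' := ⟨hH1, hH2⟩
    rw [he] at this
    exact this
  · right
    refine ⟨hinf, fun m hm => ?_⟩
    obtain ⟨A', h1, h2, h3, h4⟩ := hm
    exact skew_ab hG o ht hinf m h1 h2 h3 h4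

end Pool.Agent.Results.MP_ff40e8_al.SkewersH57
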